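import Pool.Agent.Y649.ETR.Small

/-!
# Exactly triply regular schemes with two classes
-/

namespace Pool.Agent.Results.MP_44674b_co.TwoClassClassification

open Pool.Agent.Results.MP_44674b_co.WreathExact

/-- A two-class scheme is exactly triply regular and not formally self-dual if and only if one of
its two graphs is a disjoint union of `b` complete graphs on `a` points with `a ≠ b`, `a, b ≥ 2`;
and such schemes exist for all `a, b ≥ 2`. -/
theorem result :
    (∀ (X : Type) [Fintype X] [DecidableEq X] (S : SymScheme X 2),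
      (S.ExactlyTriplyRegular ∧ ¬ S.FormallySelfDual) ↔
        ∃ (i : Fin 3) (a b : ℕ) (f : X ≃ Fin a × Fin b), i ≠ 0 ∧ 2 ≤ a ∧ 2 ≤ b ∧ a ≠ b ∧
          ∀ x y, x ≠ y → (S.c x y = i ↔ (f x).2 = (f y).2)) ∧
    (∀ a b : ℕ, 2 ≤ a → 2 ≤ b →
      ∃ (X : Type) (_ : Fintype X) (_ : DecidableEq X) (S : SymScheme X 2)
        (f : X ≃ Fin a × Fin b), ∀ x y, x ≠ y → (S.c x y = 1 ↔ (f x).2 = (f y).2)) :=
  ⟨Pool.Agent.Y649.ETR.two_explicit, Pool.Agent.Y649.ETR.two_exists⟩

end Pool.Agent.Results.MP_44674b_co.TwoClassClassification
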