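import Pool.Agent.Y469.WR.Main

/-!
# MP_44674b_co: exactly triply regular schemes and formal self-duality, a classification

All homogeneous ultrametric schemes, in particular all iterated wreath products of complete graph
schemes, are exactly triply regular.  Such a scheme is formally self-dual if and only if the ball
sizes `b 0 = 1, ..., b d = |X|` satisfy `b i * b (d - i) = |X|`; for the iterated wreath products
this means that the sequence of the sizes is a palindrome.
-/

set_option autoImplicit false

namespace Pool.Agent.Results.MP_44674b_co.UltrametricClassification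

open Finset Pool.Agent.Results.MP_44674b_co.WreathExact Pool.Agent.Y469.WR

section Wreath

variable {n : ℕ} (s : Fin (n + 2) → ℕ)

theorem bsize_step (x : (i : Fin (n + 2)) → Fin (s i)) (k : Fin (n + 2)) :
    bsize (col s) x k.succ = bsize (col s) x k.castSucc * s k := by
  rw [bsize, bsize, ball_card, ball_card]
  rw [← Finset.prod_erase_mul _ _ (Finset.mem_univ k), ← Finset.prod_erase_mul _ _ (Finset.mem_univ k)]
  have h1 : k.val < k.succ.val := by simp
  have h2 : ¬ k.val < k.castSucc.val := by simp
  rw [if_pos h1, if_neg h2, mul_one]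
  congr 1
  refine Finset.prod_congr rfl fun i hi => ?_
  have h3 : i.val ≠ k.val := fun h => (Finset.ne_of_mem_erase hi) (Fin.ext h)
  have h4 : (i.val < k.succ.val) ↔ (i.val < k.castSucc.val) := by
    rw [Fin.val_succ, Fin.val_castSucc]
    omega
  simp only [h4]

theorem pal_iff (_hs : ∀ i, 2 ≤ s i) (x : (i : Fin (n + 2)) → Fin (s i)) :
    (∀ i, bsize (col s) x i * bsize (col s) x i.rev =
      Fintype.card ((i : Fin (n + 2)) → Fin (s i))) ↔ ∀ i, s i = s i.rev := by
  have hpos : ∀ i, 0 < bsize (col s) x i := bsize_pos (col_ultra s) x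
  have key : ∀ k : Fin (n + 2),
      bsize (col s) x k.castSucc * bsize (col s) x k.castSucc.rev =
        bsize (col s) x k.castSucc * bsize (col s) x k.rev.castSucc * s k.rev ∧
      bsize (col s) x k.succ * bsize (col s) x k.succ.rev =
        bsize (col s) x k.castSucc * bsize (col s) x k.rev.castSucc * s k := by
    intro k
    rw [Fin.rev_castSucc, Fin.rev_succ, bsize_step s x k, bsize_step s x k.rev]
    constructor <;> ring
  constructor
  · intro h k
    have h1 := (key k).1.symm.trans (h k.castSucc)
    have h2 := (key k).2.symm.trans (h k.succ)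
    have h3 := h2.trans h1.symm
    exact Nat.eq_of_mul_eq_mul_left (Nat.mul_pos (hpos _) (hpos _)) h3
  · intro h i
    induction i using Fin.induction with
    | zero =>
      rw [bsize_zero (col_ultra s), one_mul, Fin.rev_zero, bsize_last']
    | succ k ih =>
      rw [(key k).2, h k, ← (key k).1, ih]

end Wreath

theorem small_ultra {X : Type} [Fintype X] [DecidableEq X] {d : ℕ} (hd : d ≤ 1)
    (S : SymScheme X d) : Ultra S.c where
  diag := S.diag
  symm := S.symm
  tri := by
    intro x y z
    by_cases h1 : S.c x y = 0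
    · rw [(S.diag x y).1 h1]
      exact le_max_right _ _
    · refine le_trans ?_ (le_max_left _ _)
      rw [Fin.le_def]
      have h2 : (S.c x y).val ≠ 0 := fun h => h1 (Fin.ext h)
      have h3 := (S.c x z).isLt
      omega
  hom := by
    intro i x x'
    by_cases h1 : i = 0
    · subst h1
      have h2 : ∀ x, (univ.filter fun y => S.c x y ≤ 0) = {x} := by
        intro x
        ext y
        rw [Finset.mem_filter, Finset.mem_singleton, Fin.le_zero_iff, S.diag]
        exact ⟨fun h => h.2.symm, fun h => ⟨Finset.mem_univ _, h.symm⟩⟩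
      rw [h2, h2, Finset.card_singleton, Finset.card_singleton]
    · have h2 : ∀ x, (univ.filter fun y => S.c x y ≤ i) = univ := by
        intro x
        ext y
        simp only [Finset.mem_filter, Finset.mem_univ, true_and, iff_true]
        rw [Fin.le_def]
        have h3 : i.val ≠ 0 := fun h => h1 (Fin.ext h)
        have h4 := (S.c x y).isLt
        omega
      rw [h2, h2]

theorem small_selfDual {X : Type} [Fintype X] [DecidableEq X] {d : ℕ} (hd : d ≤ 1)
    (S : SymScheme X d) : S.FormallySelfDual := by
  have hU := small_ultra hd S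
  obtain ⟨x, -, -⟩ := S.surj 0
  have h1 : (hU.scheme S.surj).FormallySelfDual := by
    refine selfDual_of hU S.surj x fun i => ?_
    by_cases h1 : i = 0
    · rw [h1, bsize_zero hU, one_mul, Fin.rev_zero, bsize_last']
    · have h2 : i = Fin.last d := by
        apply Fin.ext
        have h3 : i.val ≠ 0 := fun h => h1 (Fin.ext h)
        have h4 := i.isLt
        rw [Fin.val_last]
        omega
      rw [h2, bsize_last', Fin.rev_last, bsize_zero hU, mul_one]
  exact h1

theorem result :
    -- (1) homogeneous ultrametric schemes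
    (∀ (X : Type) [Fintype X] [DecidableEq X] (d : ℕ) (c : X → X → Fin (d + 1)) (h : Ultra c)
      (hs : ∀ i, ∃ x y, c x y = i),
      (h.scheme hs).ExactlyTriplyRegular ∧
      ((h.scheme hs).FormallySelfDual ↔
        ∀ (x : X) (i : Fin (d + 1)), bsize c x i * bsize c x i.rev = Fintype.card X)) ∧
    -- (2) iterated wreath products of complete graph schemes
    (∀ (n : ℕ) (s : Fin (n + 2) → ℕ) (hs : ∀ i, 2 ≤ s i),
      (wreath s hs).ExactlyTriplyRegular ∧
      ((wreath s hs).FormallySelfDual ↔ ∀ i, s i = s i.rev)) ∧
    -- (3) the numbers of classes for which the answer to the question is yes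
    (∀ d : ℕ, (∃ (X : Type) (_ : Fintype X) (_ : DecidableEq X) (S : SymScheme X d),
      S.ExactlyTriplyRegular ∧ ¬ S.FormallySelfDual) ↔ 2 ≤ d) := by
  have h1 : ∀ (X : Type) [Fintype X] [DecidableEq X] (d : ℕ) (c : X → X → Fin (d + 1))
      (h : Ultra c) (hs : ∀ i, ∃ x y, c x y = i),
      (h.scheme hs).ExactlyTriplyRegular ∧
      ((h.scheme hs).FormallySelfDual ↔
        ∀ (x : X) (i : Fin (d + 1)), bsize c x i * bsize c x i.rev = Fintype.card X) := by
    intro X _ _ d c h hs
    refine ⟨h.exact hs, fun hF x => of_selfDual h hs x hF, fun hb => ?_⟩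
    obtain ⟨x, -, -⟩ := hs 0
    exact selfDual_of h hs x (hb x)
  have h2 : ∀ (n : ℕ) (s : Fin (n + 2) → ℕ) (hs : ∀ i, 2 ≤ s i),
      (wreath s hs).ExactlyTriplyRegular ∧
      ((wreath s hs).FormallySelfDual ↔ ∀ i, s i = s i.rev) := by
    intro n s hs
    refine ⟨(col_ultra s).exact (col_surj s hs), ?_⟩
    let x : (i : Fin (n + 2)) → Fin (s i) := fun i => ⟨0, by have := hs i; omega⟩
    constructor
    · intro hF
      exact (pal_iff s hs x).1 (of_selfDual (col_ultra s) (col_surj s hs) x hF)
    · intro hp
      exact selfDual_of (col_ultra s) (col_surj s hs) x ((pal_iff s hs x).2 hp)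
  refine ⟨h1, h2, fun d => ⟨?_, ?_⟩⟩
  · rintro ⟨X, _, _, S, -, hS⟩
    by_contra hd
    exact hS (small_selfDual (by omega) S)
  · intro hd
    obtain ⟨n, rfl⟩ : ∃ n, d = n + 2 := ⟨d - 2, by omega⟩
    let s : Fin (n + 2) → ℕ := fun i => if i = 0 then 3 else 2
    have hs : ∀ i, 2 ≤ s i := by
      intro i
      simp only [s]
      split_ifs <;> norm_num
    refine ⟨_, _, _, wreath s hs, (h2 n s hs).1, fun hF => ?_⟩
    have h3 := (h2 n s hs).2.1 hF 0
    simp only [s, Fin.rev_zero, if_true] at h3
    rw [if_neg (Fin.last_pos.ne')] at h3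
    norm_num at h3

end Pool.Agent.Results.MP_44674b_co.UltrametricClassification
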