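import Pool.Agent.Y649.ETR.TopW

/-!
# Exact triple regularity and formal self-duality of wreath products
-/

namespace Pool.Agent.Results.MP_44674b_co.WreathProducts

open Pool.Agent.Results.MP_44674b_co.WreathExact Pool.Agent.Y649.ETR

/-- The wreath product of two symmetric schemes is exactly triply regular iff both factors are;
it is not formally self-dual if the factors are primitive of different sizes, or if the second
factor is a complete graph on more points than the first.  Complete graphs are exactly triply
regular and primitive; so every exactly triply regular scheme on at least two points is induced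
on the blocks of an exactly triply regular scheme that is not formally self-dual. -/
theorem result :
    (∀ (X Y : Type) [Fintype X] [DecidableEq X] [Fintype Y] [DecidableEq Y] (d e : ℕ)
      (S : SymScheme X d) (T : SymScheme Y e), ∃ R : SymScheme (X × Y) (d + e),
        (∀ p q, (p.2 = q.2 → (R.c p q).val = (S.c p.1 q.1).val) ∧
          (p.2 ≠ q.2 → (R.c p q).val = d + (T.c p.2 q.2).val)) ∧
        (R.ExactlyTriplyRegular ↔ S.ExactlyTriplyRegular ∧ T.ExactlyTriplyRegular) ∧
        (Primitive S → Primitive T → 2 ≤ Fintype.card X → 2 ≤ Fintype.card Y →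
          Fintype.card X ≠ Fintype.card Y → ¬ R.FormallySelfDual) ∧
        (e = 1 → 2 ≤ Fintype.card X → Fintype.card X < Fintype.card Y →
          ¬ R.FormallySelfDual)) ∧
    (∀ m : ℕ, 2 ≤ m → ∃ T : SymScheme (Fin m) 1, T.ExactlyTriplyRegular ∧ Primitive T) ∧
    (∀ (X : Type) [Fintype X] [DecidableEq X] (d : ℕ) (S : SymScheme X d),
      S.ExactlyTriplyRegular → 2 ≤ Fintype.card X → ∀ m : ℕ, Fintype.card X < m →
        ∃ R : SymScheme (X × Fin m) (d + 1),
          (∀ x x' j, (R.c (x, j) (x', j)).val = (S.c x x').val) ∧
          R.ExactlyTriplyRegular ∧ ¬ R.FormallySelfDual) :=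
  ⟨wr_top, complete_exists, inner_factor⟩

end Pool.Agent.Results.MP_44674b_co.WreathProducts
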